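import Pool.Agent.Helper29.RotS7

set_option autoImplicit false

open CircleDeg1Lift Set Filter Topology

namespace Pool.Agent.Results.MP_2e5e1a_gt.WeakSlippery

/-- The group of all homeomorphisms `f` of the real line with `f (x + 1) = f x + 1` for all `x`
(composition as multiplication). -/
def LiftGroup : Subgroup (ℝ ≃ₜ ℝ) where
  carrier := {f | ∀ x : ℝ, f (x + 1) = f x + 1}
  mul_mem' := by
    intro f g hf hg x
    show f (g (x + 1)) = f (g x) + 1
    rw [hg x, hf]
  one_mem' := fun x => rfl
  inv_mem' := by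
    intro f hf x
    show f.symm (x + 1) = f.symm x + 1
    rw [f.symm_apply_eq, hf, f.apply_symm_apply]

/-- The rotation through `t`: the translation `x ↦ x + t`. -/
def rotation (t : ℝ) : LiftGroup :=
  ⟨Homeomorph.addRight t, fun x => by
    show x + 1 + t = x + t + 1
    ring⟩

/-- `t` is the rotation number of `f`: `(f ^ n x - x) / n → t` for every `x`. -/
def IsRot (f : LiftGroup) (t : ℝ) : Prop :=
  ∀ x : ℝ, Tendsto (fun n : ℕ => (((f ^ n : LiftGroup) : ℝ ≃ₜ ℝ) x - x) / (n : ℝ)) atTop (𝓝 t)

/-- The set of all `rot (ρ w)`, where `ρ` runs over the homomorphisms from the free group on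
`a = of 0`, `b = of 1` to the group `LiftGroup` such that `ρ a` is conjugate to the rotation
through `r` and `ρ b` is conjugate to the rotation through `s`. -/
def rotValues (w : FreeGroup (Fin 2)) (r s : ℝ) : Set ℝ :=
  {t | ∃ ρ : FreeGroup (Fin 2) →* LiftGroup,
    IsConj (ρ (FreeGroup.of 0)) (rotation r) ∧ IsConj (ρ (FreeGroup.of 1)) (rotation s) ∧
    IsRot (ρ w) t}

/-- `R(w, r, s)`: the supremum (it is a maximum) of `rot (ρ w)` over all homomorphisms `ρ` to
`LiftGroup` with `rot (ρ a) = r` and `rot (ρ b) = s`. -/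
noncomputable def R (w : FreeGroup (Fin 2)) (r s : ℝ) : ℝ :=
  sSup {t | ∃ ρ : FreeGroup (Fin 2) →* LiftGroup,
    IsRot (ρ (FreeGroup.of 0)) r ∧ IsRot (ρ (FreeGroup.of 1)) s ∧ IsRot (ρ w) t}

/-- `R(w, r-, s-)`: the supremum of `rot (ρ w)` over all homomorphisms `ρ` to `LiftGroup` with
`ρ a` conjugate to the rotation through `r` and `ρ b` conjugate to the rotation through `s`. -/
noncomputable def Rminus (w : FreeGroup (Fin 2)) (r s : ℝ) : ℝ :=
  sSup (rotValues w r s)

/-- `(r, s)` is slippery for `w`. -/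
def Slippery (w : FreeGroup (Fin 2)) (r s : ℝ) : Prop :=
  ∀ r' s' : ℝ, r' < r → s' < s → R w r' s' < Rminus w r s

/-- the positive word given by a list of generators (`0` stands for `a`, `1` for `b`) -/
def positiveWord (l : List (Fin 2)) : FreeGroup (Fin 2) :=
  (l.map FreeGroup.of).prod

theorem mono_of_mem (f : ℝ ≃ₜ ℝ) (hf : f ∈ LiftGroup) : StrictMono f := by
  rcases f.continuous.strictMono_of_inj f.injective with h | h
  · exact h
  · exfalso
    have h1 := h (show (0 : ℝ) < 0 + 1 by norm_num)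
    have h2 := hf 0
    linarith

/-- the underlying degree one map -/
def toLift (f : LiftGroup) : CircleDeg1Lift where
  toFun := (f : ℝ ≃ₜ ℝ)
  monotone' := (mono_of_mem f f.2).monotone
  map_add_one' := f.2

theorem toLift_apply (f : LiftGroup) (x : ℝ) : toLift f x = (f : ℝ ≃ₜ ℝ) x := rfl

/-- the isomorphism with the units of the monoid of degree one lifts -/
def toUnits : LiftGroup →* CircleDeg1Liftˣ where
  toFun f := ⟨toLift f, toLift f⁻¹, by
      ext x
      show (f : ℝ ≃ₜ ℝ) ((f : ℝ ≃ₜ ℝ).symm x) = x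
      exact (f : ℝ ≃ₜ ℝ).apply_symm_apply x, by
      ext x
      show (f : ℝ ≃ₜ ℝ).symm ((f : ℝ ≃ₜ ℝ) x) = x
      exact (f : ℝ ≃ₜ ℝ).symm_apply_apply x⟩
  map_one' := by
    ext x
    rfl
  map_mul' f g := by
    ext x
    rfl

theorem toUnits_apply (f : LiftGroup) (x : ℝ) : (toUnits f : CircleDeg1Lift) x = (f : ℝ ≃ₜ ℝ) x := rfl

/-- the inverse isomorphism -/
noncomputable def ofUnits : CircleDeg1Liftˣ →* LiftGroup where
  toFun u := ⟨(toOrderIso u).toHomeomorph, fun x => by
    show u (x + 1) = u x + 1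
    exact CircleDeg1Lift.map_add_one _ x⟩
  map_one' := by
    apply Subtype.ext
    ext x
    rfl
  map_mul' u v := by
    apply Subtype.ext
    ext x
    rfl

theorem ofUnits_apply (u : CircleDeg1Liftˣ) (x : ℝ) : ((ofUnits u : LiftGroup) : ℝ ≃ₜ ℝ) x = u x := rfl

theorem toUnits_ofUnits (u : CircleDeg1Liftˣ) : toUnits (ofUnits u) = u := by
  ext x
  rfl

theorem ofUnits_toUnits (f : LiftGroup) : ofUnits (toUnits f) = f := by
  apply Subtype.ext
  ext x
  rfl

theorem toUnits_rotation (t : ℝ) : toUnits (rotation t) = translate (Multiplicative.ofAdd t) := by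
  ext x
  rw [toUnits_apply, translate_apply]
  show x + t = t + x
  ring

theorem ofUnits_translate (t : ℝ) : ofUnits (translate (Multiplicative.ofAdd t)) = rotation t := by
  rw [← toUnits_rotation, ofUnits_toUnits]

theorem isRot_translationNumber (f : LiftGroup) :
    IsRot f (translationNumber (toUnits f : CircleDeg1Lift)) := by
  intro x
  have h := tendsto_translationNumber (toUnits f : CircleDeg1Lift) x
  refine h.congr fun n => ?_
  have : ((toUnits f : CircleDeg1Lift) ^ n) x = ((f ^ n : LiftGroup) : ℝ ≃ₜ ℝ) x := by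
    rw [← toUnits_apply, map_pow, Units.val_pow_eq_pow_val]
  rw [this]

theorem isRot_iff (f : LiftGroup) (t : ℝ) :
    IsRot f t ↔ t = translationNumber (toUnits f : CircleDeg1Lift) := by
  constructor
  · intro h
    exact tendsto_nhds_unique (h 0) (isRot_translationNumber f 0)
  · rintro rfl
    exact isRot_translationNumber f

theorem rotValues_eq (w : FreeGroup (Fin 2)) (r s : ℝ) : rotValues w r s = Pool.Agent.Helper29.Rot.rotSet w r s := by
  ext t
  constructor
  · rintro ⟨ρ, h0, h1, h2⟩
    refine ⟨toUnits.comp ρ, ?_, ?_, ?_⟩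
    · have := toUnits.map_isConj h0
      rwa [toUnits_rotation] at this
    · have := toUnits.map_isConj h1
      rwa [toUnits_rotation] at this
    · exact (isRot_iff _ _).1 h2
  · rintro ⟨ρ, h0, h1, h2⟩
    refine ⟨ofUnits.comp ρ, ?_, ?_, ?_⟩
    · have := ofUnits.map_isConj h0
      rwa [ofUnits_translate] at this
    · have := ofUnits.map_isConj h1
      rwa [ofUnits_translate] at this
    · rw [isRot_iff, h2]
      simp only [MonoidHom.comp_apply]
      rw [toUnits_ofUnits]

theorem R_eq (w : FreeGroup (Fin 2)) (r s : ℝ) :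
    R w r s = sSup (Pool.Agent.Helper29.Rot.rotSetMax w r s) := by
  unfold R
  congr 1
  ext t
  constructor
  · rintro ⟨ρ, h0, h1, h2⟩
    exact ⟨toUnits.comp ρ, ((isRot_iff _ _).1 h0).symm, ((isRot_iff _ _).1 h1).symm,
      (isRot_iff _ _).1 h2⟩
  · rintro ⟨ρ, h0, h1, h2⟩
    refine ⟨ofUnits.comp ρ, ?_, ?_, ?_⟩
    · rw [isRot_iff]
      simp only [MonoidHom.comp_apply]
      rw [toUnits_ofUnits, h0]
    · rw [isRot_iff]
      simp only [MonoidHom.comp_apply]
      rw [toUnits_ofUnits, h1]
    · rw [isRot_iff, h2]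
      simp only [MonoidHom.comp_apply]
      rw [toUnits_ofUnits]

/-- The weak slippery conjecture: if `w` is a positive word and `(r, s)` is slippery for `w`, then
`h_a(w) r + h_b(w) s = R(w, r-, s-)`. -/
theorem result (l : List (Fin 2)) (r s : ℝ) (h : Slippery (positiveWord l) r s) :
    (l.count 0 : ℝ) * r + (l.count 1 : ℝ) * s = Rminus (positiveWord l) r s := by
  have h1 := Pool.Agent.Helper29.Rot.weak_slippery l r s (fun r' s' hr hs => by
    have := h r' s' hr hs
    rw [R_eq] at this
    unfold Rminus at this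
    rw [rotValues_eq] at this
    exact this)
  unfold Rminus
  rw [rotValues_eq]
  exact h1.symm

end Pool.Agent.Results.MP_2e5e1a_gt.WeakSlippery
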